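import Pool.Agent.H7.KC.Stmts

set_option autoImplicit false

open Finset

namespace Pool.KC7

open Pool.Agent.H23.KT Pool.Agent.H46.KW Pool.KQ Pool.GT7 Pool.GU7 Pool.HZ7 Pool.IA7

theorem nua_frac (p : ℕ) (hp : 5 ≤ p) (c : ℝ) (hc : 0 < c) (hcp : c ≤ (p : ℝ) + 2) :
    (1 + 1 / (7 * ((p : ℝ) + 3) ^ 2)) / ((p : ℝ) + 2) ≤ (449 / 448) / c := by
  have hp' : (5 : ℝ) ≤ p := by exact_mod_cast hp
  have h1 : 1 / (7 * ((p : ℝ) + 3) ^ 2) ≤ 1 / 448 := by
    apply one_div_le_one_div_of_le (by norm_num)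
    nlinarith
  have h2 : (1 + 1 / (7 * ((p : ℝ) + 3) ^ 2)) ≤ 449 / 448 := by linarith
  have h3 : (0 : ℝ) ≤ 449 / 448 := by norm_num
  exact div_le_div₀ h3 h2 hc hcp

theorem nua_pow (p w : ℕ) (hp : 5 ≤ p) (c g : ℝ) (hc : 0 < c) (hcp : c ≤ (p : ℝ) + 2)
    (hg : ((w : ℝ) + 1) / ((w : ℝ) + 2) + (449 / 448) / c ≤ g) :
    (((w : ℝ) + 1) / ((w : ℝ) + 2) +
        (1 + 1 / (7 * ((p : ℝ) + 3) ^ 2)) / ((p : ℝ) + 2)) ^ (w + 1) ≤ g ^ (w + 1) := by
  have h1 := nua_frac p hp c hc hcp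
  have h0 : 0 ≤ (((w : ℝ) + 1) / ((w : ℝ) + 2) +
        (1 + 1 / (7 * ((p : ℝ) + 3) ^ 2)) / ((p : ℝ) + 2)) := by positivity
  exact pow_le_pow_left₀ h0 (by linarith) _

theorem nua_exp (x t : ℝ) (n : ℕ) (hx : 0 ≤ x) (hxt : t ≤ (n : ℝ) * (1 - x)) :
    x ^ n ≤ Real.exp (-t) := by
  have h1 : x ≤ Real.exp (-(1 - x)) := by
    have := Real.add_one_le_exp (-(1 - x))
    linarith
  calc x ^ n ≤ (Real.exp (-(1 - x))) ^ n := pow_le_pow_left₀ hx h1 n
    _ = Real.exp ((n : ℝ) * (-(1 - x))) := by rw [Real.exp_nat_mul]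
    _ ≤ Real.exp (-t) := by
      apply Real.exp_le_exp.mpr
      linarith

theorem nua_exp_num (t c : ℝ) (k : ℕ) (hk : 0 < k) (ht : 0 ≤ t) (hc : 0 < c)
    (h : 1 ≤ c * (1 + t / k + (t / k) ^ 2 / 2) ^ k) : Real.exp (-t) ≤ c := by
  have hk' : (0 : ℝ) < k := by exact_mod_cast hk
  have h1 : 1 + t / k + (t / k) ^ 2 / 2 ≤ Real.exp (t / k) :=
    Real.quadratic_le_exp_of_nonneg (div_nonneg ht hk'.le)
  have h2 : (1 + t / k + (t / k) ^ 2 / 2) ^ k ≤ (Real.exp (t / k)) ^ k :=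
    pow_le_pow_left₀ (by positivity) h1 k
  have h3 : (Real.exp (t / k)) ^ k = Real.exp t := by
    rw [← Real.exp_nat_mul]
    congr 1
    field_simp
  rw [h3] at h2
  rw [Real.exp_neg]
  have he := Real.exp_pos t
  rw [inv_le_comm₀ he hc]
  have h4 : 1 ≤ c * Real.exp t := le_trans h (mul_le_mul_of_nonneg_left h2 hc.le)
  rw [inv_le_iff_one_le_mul₀ hc]
  linarith [mul_comm c (Real.exp t)]

/-- Large `w`. -/
theorem nua_large (p w : ℕ) (hw : 9 ≤ w) (hp : 5 ≤ p) (hwp : 3 * w + 8 ≤ 2 * (p + 2)) :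
    ∃ X : ℝ, 0 < X ∧ X < 1 ∧
    ((w : ℝ) + 1) * (((w : ℝ) + 1) / ((w : ℝ) + 2)) ^ (w + 1) ≤
      ∑ k ∈ range (w + 1), X ^ (k + 1) ∧
    (((w : ℝ) + 1) / ((w : ℝ) + 2) +
        (1 + 1 / (7 * ((p : ℝ) + 3) ^ 2)) / ((p : ℝ) + 2)) ^ (w + 1) ≤ 1 - X ^ (w + 1) := by
  have hw' : (9 : ℝ) ≤ w := by exact_mod_cast hw
  have hwp' : 3 * (w : ℝ) + 8 ≤ 2 * ((p : ℝ) + 2) := by exact_mod_cast hwp
  have hd : (0 : ℝ) < 4 * w + 9 := by linarith
  have hX0 : (0 : ℝ) < (4 * w + 3) / (4 * w + 9) := by positivity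
  have hX1 : (4 * (w : ℝ) + 3) / (4 * w + 9) < 1 := by
    rw [div_lt_one hd]; linarith
  have e1 : (1 : ℝ) - (4 * w + 3) / (4 * w + 9) = 6 / (4 * w + 9) := by
    field_simp; ring
  -- the power of X
  have hXp : ((4 * (w : ℝ) + 3) / (4 * w + 9)) ^ (w + 1) ≤ 27 / 100 := by
    refine le_trans (nua_exp _ (4 / 3) (w + 1) hX0.le ?_) ?_
    · rw [e1]
      push_cast
      rw [mul_div_assoc', div_le_div_iff₀ (by norm_num) hd]
      nlinarith
    · apply nua_exp_num (4 / 3) (27 / 100) 4 (by norm_num) (by norm_num) (by norm_num)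
      norm_num
  -- the power of th
  have hth : (((w : ℝ) + 1) / ((w : ℝ) + 2)) ^ (w + 1) ≤ 42 / 100 := by
    refine le_trans (nua_exp _ (9 / 10) (w + 1) (by positivity) ?_) ?_
    · have : (1 : ℝ) - ((w : ℝ) + 1) / ((w : ℝ) + 2) = 1 / ((w : ℝ) + 2) := by
        field_simp; ring
      rw [this]
      push_cast
      rw [mul_one_div, div_le_div_iff₀ (by norm_num) (by linarith)]
      nlinarith
    · apply nua_exp_num (9 / 10) (42 / 100) 2 (by norm_num) (by norm_num) (by norm_num)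
      norm_num
  refine ⟨(4 * w + 3) / (4 * w + 9), hX0, hX1, ?_, ?_⟩
  · have hs : ∑ k ∈ range (w + 1), ((4 * (w : ℝ) + 3) / (4 * w + 9)) ^ (k + 1) =
        (4 * w + 3) / 6 * (1 - ((4 * (w : ℝ) + 3) / (4 * w + 9)) ^ (w + 1)) := by
      have hg := geom_sum_eq (ne_of_lt hX1) (w + 1)
      have hm : ∑ k ∈ range (w + 1), ((4 * (w : ℝ) + 3) / (4 * w + 9)) ^ (k + 1) =
          ((4 * (w : ℝ) + 3) / (4 * w + 9)) *
            ∑ k ∈ range (w + 1), ((4 * (w : ℝ) + 3) / (4 * w + 9)) ^ k := by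
        rw [mul_sum]
        exact sum_congr rfl fun k _ => by rw [pow_succ, mul_comm]
      rw [hm, hg]
      have e2 : (4 * (w : ℝ) + 3) / (4 * w + 9) - 1 = -(6 / (4 * w + 9)) := by linarith
      rw [e2]
      generalize ((4 * (w : ℝ) + 3) / (4 * w + 9)) ^ (w + 1) = Y
      field_simp
      ring
    rw [hs]
    have h1 : ((w : ℝ) + 1) * (((w : ℝ) + 1) / ((w : ℝ) + 2)) ^ (w + 1) ≤
        ((w : ℝ) + 1) * (42 / 100) := mul_le_mul_of_nonneg_left hth (by positivity)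
    have h2 : (4 * (w : ℝ) + 3) / 6 * (73 / 100) ≤
        (4 * w + 3) / 6 * (1 - ((4 * (w : ℝ) + 3) / (4 * w + 9)) ^ (w + 1)) :=
      mul_le_mul_of_nonneg_left (by linarith) (by positivity)
    linarith
  · have h1 := nua_pow p w hp ((3 * (w : ℝ) + 8) / 2)
      (((w : ℝ) + 1) / ((w : ℝ) + 2) + (449 / 448) / ((3 * (w : ℝ) + 8) / 2))
      (by positivity) (by linarith) le_rfl
    have h2 : (((w : ℝ) + 1) / ((w : ℝ) + 2) + (449 / 448) / ((3 * (w : ℝ) + 8) / 2)) ^ (w + 1) ≤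
        73 / 100 := by
      refine le_trans (nua_exp _ (328 / 1000) (w + 1) (by positivity) ?_) ?_
      · have : (1 : ℝ) - (((w : ℝ) + 1) / ((w : ℝ) + 2) +
            (449 / 448) / ((3 * (w : ℝ) + 8) / 2)) =
            (223 * w + 894) / (224 * ((w + 2) * (3 * w + 8))) := by
          field_simp; ring
        rw [this]
        push_cast
        rw [mul_div_assoc', div_le_div_iff₀ (by norm_num) (by positivity)]
        nlinarith
      · apply nua_exp_num (328 / 1000) (73 / 100) 1 (by norm_num) (by norm_num) (by norm_num)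
        norm_num
    linarith

theorem nua_thm : NUAStmt := by
  intro p w r hP
  have hw1 := hP.w1
  have hrp := hP.rp
  have hs := hP.s1
  have h3 : 3 * (w + 1) < 2 * r := by
    have : 3 ≤ p + 3 - r := by omega
    calc 3 * (w + 1) ≤ (w + 1) * (p + 3 - r) := by rw [mul_comm]; exact Nat.mul_le_mul_left _ this
      _ < 2 * r := hs
  have hwp : 3 * w + 8 ≤ 2 * (p + 2) := by omega
  by_cases h9 : 9 ≤ w
  · exact nua_large p w h9 (by omega) hwp
  push Not at h9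
  have hwp' : 3 * (w : ℝ) + 8 ≤ 2 * ((p : ℝ) + 2) := by exact_mod_cast hwp
  rcases Nat.lt_or_ge 1 w with h1 | h1
  · -- 2 ≤ w ≤ 8
    have hp5 : 5 ≤ p := by omega
    have hB := nua_pow p w hp5 ((3 * (w : ℝ) + 8) / 2)
      (((w : ℝ) + 1) / ((w : ℝ) + 2) + (449 / 448) / ((3 * (w : ℝ) + 8) / 2))
      (by positivity) (by linarith) le_rfl
    refine ⟨(4 * w + 3) / (4 * w + 9), by positivity, ?_, ?_, le_trans hB ?_⟩
    · rw [div_lt_one (by positivity)]; linarith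
    · interval_cases w <;> norm_num [sum_range_succ]
    · interval_cases w <;> norm_num
  · have hw : w = 1 := by omega
    subst hw
    have hp6 : 6 ≤ p := hP.p6 rfl
    have hp6' : (6 : ℝ) ≤ p := by exact_mod_cast hp6
    have hB := nua_pow p 1 (by omega) 8 (2 / 3 + (449 / 448) / 8)
      (by norm_num) (by linarith) (by norm_num)
    refine ⟨3 / 5, by norm_num, by norm_num, ?_, le_trans hB ?_⟩
    · norm_num [sum_range_succ]
    · norm_num

end Pool.KC7
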