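import Pool.Agent.H51.KC.NUA

set_option autoImplicit false

open Finset

namespace Pool.KC7

open Pool.Agent.H23.KT Pool.Agent.H46.KW Pool.KQ Pool.GT7 Pool.GU7 Pool.HZ7 Pool.IA7

theorem nuj_pow (x y : ℝ) (hy : 0 ≤ y) (hxy : y ≤ x) (n : ℕ) :
    x ^ (n + 1) - y ^ (n + 1) ≤ ((n : ℝ) + 1) * x ^ n * (x - y) := by
  have hx : 0 ≤ x := le_trans hy hxy
  induction n with
  | zero => simp
  | succ n ih =>
    have h1 : y ^ (n + 1) ≤ x ^ (n + 1) := pow_le_pow_left₀ hy hxy _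
    have e1 : x ^ (n + 1 + 1) - y ^ (n + 1 + 1) =
        x * (x ^ (n + 1) - y ^ (n + 1)) + y ^ (n + 1) * (x - y) := by ring
    have h2 : x * (x ^ (n + 1) - y ^ (n + 1)) ≤ x * (((n : ℝ) + 1) * x ^ n * (x - y)) :=
      mul_le_mul_of_nonneg_left ih hx
    have h3 : y ^ (n + 1) * (x - y) ≤ x ^ (n + 1) * (x - y) :=
      mul_le_mul_of_nonneg_right h1 (by linarith)
    rw [e1]
    push_cast
    calc x * (x ^ (n + 1) - y ^ (n + 1)) + y ^ (n + 1) * (x - y) ≤
        x * (((n : ℝ) + 1) * x ^ n * (x - y)) + x ^ (n + 1) * (x - y) := add_le_add h2 h3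
      _ = ((n : ℝ) + 1 + 1) * x ^ (n + 1) * (x - y) := by ring

theorem nuj_thm : NUJStmt := by
  intro p w r hP
  obtain ⟨X, hX0, hX1, hA, hB⟩ := nua_thm p w r hP
  have hb : (0 : ℝ) < (p : ℝ) + 3 := by positivity
  have hb2 : (0 : ℝ) < (p : ℝ) + 2 := by positivity
  set th : ℝ := ((w : ℝ) + 1) / ((w : ℝ) + 2) with hth
  have hth0 : 0 ≤ th := by positivity
  have hth1 : th ≤ 1 := by
    rw [hth, div_le_one (by positivity)]; linarith
  set g : ℝ := th + (1 + 1 / (7 * ((p : ℝ) + 3) ^ 2)) / ((p : ℝ) + 2) with hg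
  have hg0 : 0 ≤ g := by positivity
  refine ⟨g, hg0, ⟨56 * (p + 3) ^ 2 * r, ?_⟩, ?_⟩
  · intro a ha
    have ha' : 56 * ((p : ℝ) + 3) ^ 2 * r ≤ a := by exact_mod_cast ha
    have e1 : ((p : ℝ) + 2) * (g * a) =
        (mJ p w + 1 + 1 / (7 * ((p : ℝ) + 3) ^ 2)) * a := by
      rw [hg, mJ, ← hth]
      field_simp
      ring
    rw [e1]
    have e2 : (mJ p w + 1 + 1 / (7 * ((p : ℝ) + 3) ^ 2)) * a =
        (mJ p w + 1 + 1 / (8 * ((p : ℝ) + 3) ^ 2)) * a + a / (56 * ((p : ℝ) + 3) ^ 2) := by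
      field_simp
      ring
    rw [e2]
    have h3 : (r : ℝ) ≤ a / (56 * ((p : ℝ) + 3) ^ 2) := by
      rw [le_div_iff₀ (by positivity)]
      linarith
    linarith
  · refine ⟨(r : ℝ) * (w + 1) + ((p : ℝ) + 3 + r) * (((w : ℝ) + 1) * (1 + r) ^ w * r) + 1,
      by positivity, 1, ?_⟩
    intro a ha n hn
    have ha' : (1 : ℝ) ≤ a := by exact_mod_cast ha
    have ha0 : (0 : ℝ) ≤ a := by linarith
    have hn' : (n : ℝ) ≤ ((p : ℝ) + 3) * a + r := by exact_mod_cast hn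
    have hr0 : (0 : ℝ) ≤ r := by positivity
    have hn0 : (0 : ℝ) ≤ n := by positivity
    have hD : (((p + 3) * a + r : ℕ) : ℝ) = ((p : ℝ) + 3) * a + r := by push_cast; ring
    rw [hD]
    set y : ℝ := ((p : ℝ) + 3) * a + r - n with hy
    have hy0 : 0 ≤ y := by linarith
    have hne : (n : ℝ) = ((p : ℝ) + 3) * a + r - y := by rw [hy]; ring
    have hthp : th ^ (w + 1) ≤ 1 := pow_le_one₀ hth0 hth1
    have hthp0 : 0 ≤ th ^ (w + 1) := pow_nonneg hth0 _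
    have hap : 0 ≤ (a : ℝ) ^ (w + 1) := by positivity
    have hrth : (r : ℝ) * ((w : ℝ) + 1) * (th * a) ^ (w + 1) ≤ r * ((w : ℝ) + 1) * (a : ℝ) ^ (w + 1) := by
      rw [mul_pow]
      apply mul_le_mul_of_nonneg_left _ (by positivity)
      calc th ^ (w + 1) * (a : ℝ) ^ (w + 1) ≤ 1 * (a : ℝ) ^ (w + 1) :=
            mul_le_mul_of_nonneg_right hthp hap
        _ = _ := one_mul _
    have hK2 : 0 ≤ ((p : ℝ) + 3 + r) * (((w : ℝ) + 1) * (1 + r) ^ w * r) * (a : ℝ) ^ (w + 1) := by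
      positivity
    rcases le_total (((p : ℝ) + 3) * a) y with h1 | h1
    · left
      have hnr : (n : ℝ) ≤ r := by linarith
      have l1 : (n : ℝ) * ((w : ℝ) + 1) * (th * a) ^ (w + 1) ≤
          r * ((w : ℝ) + 1) * (th * a) ^ (w + 1) := by
        apply mul_le_mul_of_nonneg_right _ (by positivity)
        exact mul_le_mul_of_nonneg_right hnr (by positivity)
      have hyb : (a : ℝ) ≤ y / ((p : ℝ) + 3) := by
        rw [le_div_iff₀ hb]; linarith
      have hyb2 : y / ((p : ℝ) + 3) ≤ a + r := by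
        rw [div_le_iff₀ hb]
        have : y ≤ ((p : ℝ) + 3) * a + r := by linarith
        nlinarith
      have hyb3 : y / ((p : ℝ) + 3) ≤ (1 + r) * a := by nlinarith
      have hyb0 : 0 ≤ y / ((p : ℝ) + 3) := div_nonneg hy0 hb.le
      have l2 := nuj_pow (y / ((p : ℝ) + 3)) a ha0 hyb w
      have l3 : (y / ((p : ℝ) + 3)) ^ w ≤ (1 + r) ^ w * (a : ℝ) ^ w := by
        rw [← mul_pow]
        exact pow_le_pow_left₀ hyb0 hyb3 w
      have l4 : (y / ((p : ℝ) + 3)) ^ (w + 1) - (a : ℝ) ^ (w + 1) ≤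
          ((w : ℝ) + 1) * ((1 + r) ^ w * (a : ℝ) ^ w) * r := by
        refine le_trans l2 ?_
        have m1 : ((w : ℝ) + 1) * (y / ((p : ℝ) + 3)) ^ w ≤
            ((w : ℝ) + 1) * ((1 + r) ^ w * (a : ℝ) ^ w) :=
          mul_le_mul_of_nonneg_left l3 (by positivity)
        exact mul_le_mul m1 (by linarith) (by linarith) (by positivity)
      have l5 : y ≤ ((p : ℝ) + 3 + r) * a := by
        have : y ≤ ((p : ℝ) + 3) * a + r := by linarith
        nlinarith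
      have l6 : y * ((y / ((p : ℝ) + 3)) ^ (w + 1) - (a : ℝ) ^ (w + 1)) ≤
          (((p : ℝ) + 3 + r) * a) * (((w : ℝ) + 1) * ((1 + r) ^ w * (a : ℝ) ^ w) * r) := by
        have p1 : 0 ≤ (y / ((p : ℝ) + 3)) ^ (w + 1) - (a : ℝ) ^ (w + 1) := by
          have := pow_le_pow_left₀ ha0 hyb (w + 1)
          linarith
        exact mul_le_mul l5 l4 p1 (by positivity)
      have l7 : (((p : ℝ) + 3 + r) * a) * (((w : ℝ) + 1) * ((1 + r) ^ w * (a : ℝ) ^ w) * r) =
          ((p : ℝ) + 3 + r) * (((w : ℝ) + 1) * (1 + r) ^ w * r) * (a : ℝ) ^ (w + 1) := by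
        rw [pow_succ (a : ℝ) w]; ring
      have l8 : y * ((a : ℝ) ^ (w + 1) - (y / ((p : ℝ) + 3)) ^ (w + 1)) =
          - (y * ((y / ((p : ℝ) + 3)) ^ (w + 1) - (a : ℝ) ^ (w + 1))) := by ring
      rw [l8]
      rw [l7] at l6
      have l9 : ((r : ℝ) * (w + 1) + ((p : ℝ) + 3 + r) * (((w : ℝ) + 1) * (1 + r) ^ w * r) + 1) *
          (a : ℝ) ^ (w + 1) = r * ((w : ℝ) + 1) * (a : ℝ) ^ (w + 1) +
          ((p : ℝ) + 3 + r) * (((w : ℝ) + 1) * (1 + r) ^ w * r) * (a : ℝ) ^ (w + 1) +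
          (a : ℝ) ^ (w + 1) := by ring
      rw [l9]
      linarith
    rcases le_total (X * (((p : ℝ) + 3) * a)) y with h2 | h2
    · left
      have ha1 : (0 : ℝ) < a := by linarith
      have hba : 0 < ((p : ℝ) + 3) * a := by positivity
      obtain ⟨x, hx⟩ : ∃ x : ℝ, y = x * (((p : ℝ) + 3) * a) :=
        ⟨y / (((p : ℝ) + 3) * a), by field_simp⟩
      have hxX : X ≤ x := by
        rw [hx] at h2
        exact le_of_mul_le_mul_right h2 hba
      have hx1 : x ≤ 1 := by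
        rw [hx] at h1
        have : x * (((p : ℝ) + 3) * a) ≤ 1 * (((p : ℝ) + 3) * a) := by linarith
        exact le_of_mul_le_mul_right this hba
      have hx0 : 0 ≤ x := le_trans hX0.le hxX
      have s1 : ∑ k ∈ range (w + 1), X ^ (k + 1) ≤ ∑ k ∈ range (w + 1), x ^ (k + 1) :=
        sum_le_sum fun k _ => pow_le_pow_left₀ hX0.le hxX _
      have s2 : (1 - x) * ∑ k ∈ range (w + 1), x ^ (k + 1) = x * (1 - x ^ (w + 1)) := by
        have hm : ∑ k ∈ range (w + 1), x ^ (k + 1) = x * ∑ k ∈ range (w + 1), x ^ k := by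
          rw [mul_sum]
          exact sum_congr rfl fun k _ => by rw [pow_succ, mul_comm]
        have hgs := mul_neg_geom_sum x (w + 1)
        rw [hm]
        calc (1 - x) * (x * ∑ k ∈ range (w + 1), x ^ k) =
            x * ((1 - x) * ∑ k ∈ range (w + 1), x ^ k) := by ring
          _ = _ := by rw [hgs]
      have s3 : (1 - x) * (((w : ℝ) + 1) * th ^ (w + 1)) ≤ x * (1 - x ^ (w + 1)) := by
        rw [← s2]
        exact mul_le_mul_of_nonneg_left (le_trans hA s1) (by linarith)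
      have e1 : y / ((p : ℝ) + 3) = x * a := by
        rw [hx]; field_simp
      rw [e1, hne, hx, mul_pow, mul_pow]
      have e2 : (((p : ℝ) + 3) * a + r - x * (((p : ℝ) + 3) * a)) * ((w : ℝ) + 1) *
          (th ^ (w + 1) * (a : ℝ) ^ (w + 1)) =
          (((p : ℝ) + 3) * a * (a : ℝ) ^ (w + 1)) * ((1 - x) * (((w : ℝ) + 1) * th ^ (w + 1))) +
          r * ((w : ℝ) + 1) * (th * a) ^ (w + 1) := by rw [mul_pow]; ring
      have e3 : x * (((p : ℝ) + 3) * a) * ((a : ℝ) ^ (w + 1) - x ^ (w + 1) * (a : ℝ) ^ (w + 1)) =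
          (((p : ℝ) + 3) * a * (a : ℝ) ^ (w + 1)) * (x * (1 - x ^ (w + 1))) := by ring
      rw [e2, e3]
      have s4 : (((p : ℝ) + 3) * a * (a : ℝ) ^ (w + 1)) *
          ((1 - x) * (((w : ℝ) + 1) * th ^ (w + 1))) ≤
          (((p : ℝ) + 3) * a * (a : ℝ) ^ (w + 1)) * (x * (1 - x ^ (w + 1))) :=
        mul_le_mul_of_nonneg_left s3 (by positivity)
      have l9 : ((r : ℝ) * (w + 1) + ((p : ℝ) + 3 + r) * (((w : ℝ) + 1) * (1 + r) ^ w * r) + 1) *
          (a : ℝ) ^ (w + 1) = r * ((w : ℝ) + 1) * (a : ℝ) ^ (w + 1) +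
          ((p : ℝ) + 3 + r) * (((w : ℝ) + 1) * (1 + r) ^ w * r) * (a : ℝ) ^ (w + 1) +
          (a : ℝ) ^ (w + 1) := by ring
      rw [l9]
      linarith
    · right
      have q1 : y / ((p : ℝ) + 3) ≤ X * a := by
        rw [div_le_iff₀ hb]; linarith
      have q2 : (y / ((p : ℝ) + 3)) ^ (w + 1) ≤ X ^ (w + 1) * (a : ℝ) ^ (w + 1) := by
        rw [← mul_pow]
        exact pow_le_pow_left₀ (div_nonneg hy0 hb.le) q1 _
      have q3 : (g * a) ^ (w + 1) ≤ (1 - X ^ (w + 1)) * (a : ℝ) ^ (w + 1) := by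
        rw [mul_pow]
        exact mul_le_mul_of_nonneg_right hB hap
      linarith

end Pool.KC7
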